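import Pool.Agent.Helper5.DCD.P1
import Pool.Agent.Helper5.DCD.P2
import Pool.Agent.Helper5.DCD.ModA
import Pool.Agent.Helper5.DCD.T
import Pool.Agent.Helper30.DCD.HamOf
import Pool.Agent.Helper72.DCD.H2

/-!
# PLANAR-MIN-DCD is NP-hard

There is a polynomial-time reduction from the Hamiltonian cycle problem for plane graphs to the
question whether a planar Eulerian digraph can be decomposed into at most `k` directed cycles; the
digraphs it produces are loopless and have all in-degrees and out-degrees equal to two.
-/

open Equiv Equiv.Perm Helper5.CR Turing Computability Helper5.DCD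

namespace Pool.Agent.Results.MP_0ab4aa_lc.PlanarNPHard

theorem nm_bijective {m : ℕ} : Function.Bijective (nm : Fin m × Fin 3 → Fin (3 * m)) := by
  rw [Fintype.bijective_iff_injective_and_card]
  exact ⟨nm_injective, by simp [mul_comm]⟩

/-- A polynomial-time many-one reduction from Hamiltonicity of plane multigraphs (minimum degree
at least two, at least three vertices) to PLANAR-MIN-DCD. -/
theorem result : ∃ f : PlaneGraph → DInst,
    Nonempty (TM2ComputableInPolyTime PlaneGraph.code DInst.code f) ∧
    ∀ G : PlaneGraph, (f G).Loopless ∧ (∀ v, (f G).indeg v = 2 ∧ (f G).outdeg v = 2) ∧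
      (f G).IsPlanar ∧ ((f G).Yes ↔ G.graph.IsHamiltonian) := by
  refine ⟨red, polyTime_red, fun G => ⟨loopless_red G, ?_, ?_, ?_⟩⟩
  · exact degrees_of (red G) (sg G.σ) (idx G) nm nm_bijective (tail_idx G) (head_idx G)
  · exact isPlanar_of (red G) (sg G.σ) (idx G) nm nm_injective (tail_idx G) (head_idx G)
      (planar_sg G.planar)
  · refine (yes_iff (red G) (loopless_red G) (sg G.σ) (idx G) nm nm_injective (tail_idx G)
      (head_idx G)).trans ((level_iff G.planar).trans ⟨?_, of_ham G⟩)
    rintro ⟨S, h1, h2⟩
    exact ham_of G S h1 h2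

end Pool.Agent.Results.MP_0ab4aa_lc.PlanarNPHard
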